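import Pool.Agent.Lib_TTT.Main
import Pool.Agent.Lib_TTT.DrawTab

/-!
The games `4^d` with `4 ≤ d ≤ 8` belong to Class 2.
-/

set_option autoImplicit false

namespace Pool.Agent.Results.MP_2888f6_co.ClassTwoFour

/-- The geometric lines of `n^d`: the edges of the game, in the words of `S07761`. -/
def IsLine (n d : ℕ) (e : Finset (Fin d → Fin n)) : Prop :=
  ∃ f : Fin n → Fin d → Fin n,
    (∀ j, (∀ i i', f i j = f i' j) ∨ (∀ i, f i j = i) ∨ (∀ i, f i j = Fin.rev i)) ∧
    (∃ j i i', f i j ≠ f i' j) ∧ e = Finset.univ.image f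

/-- A drawing position of `n^d`, in the words of `S07761`. -/
def DrawingPosition (n d : ℕ) : Prop :=
  ∃ A : Finset (Fin d → Fin n), A.card = (Fintype.card (Fin d → Fin n) + 1) / 2 ∧
    ∀ e : Finset (Fin d → Fin n), IsLine n d e → (∃ x ∈ e, x ∉ A) ∧ (∃ x ∈ e, x ∈ A)

/-- The first player has a winning strategy in `n^d`, in the words of `S07761`. -/
def FirstPlayerWins (n d : ℕ) : Prop :=
  ∃ σ : List (Fin d → Fin n) → (Fin d → Fin n),
    (∀ h : List (Fin d → Fin n), h.Nodup → h.length < Fintype.card (Fin d → Fin n) →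
      Even h.length → (∀ k < h.length, Even k → h[k]? = some (σ (h.take k))) → σ h ∉ h) ∧
    ∀ l : List (Fin d → Fin n), l.Nodup → l.length = Fintype.card (Fin d → Fin n) →
      (∀ k < l.length, Even k → l[k]? = some (σ (l.take k))) →
      ∃ k ≤ l.length,
        (∃ e : Finset (Fin d → Fin n), IsLine n d e ∧
          ∀ x ∈ e, ∃ i < k, Even i ∧ l[i]? = some x) ∧
        ∀ e : Finset (Fin d → Fin n), IsLine n d e →
          ∃ x ∈ e, ∀ i < k, Odd i → l[i]? ≠ some x

/-- The pairs `(n, d)` for which `n^d` is in Class 2: the first set of `S07761`. -/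
def Class2 : Set (ℕ × ℕ) :=
  {p | ∃ n d : ℕ, p = (n, d) ∧ 2 ≤ n ∧ 1 ≤ d ∧ DrawingPosition n d ∧ FirstPlayerWins n d}

/-- The games `4^4`, `4^5`, `4^6`, `4^7` and `4^8` are in Class 2. -/
theorem result : ∀ d : ℕ, 4 ≤ d → d ≤ 8 → (4, d) ∈ Class2 := by
  intro d h4 h8
  have hdraw : DrawingPosition 4 d := by
    interval_cases d
    · exact Pool.Agent.Lib_TTT.hasDraw4
    · exact Pool.Agent.Lib_TTT.hasDraw5
    · exact Pool.Agent.Lib_TTT.hasDraw6
    · exact Pool.Agent.Lib_TTT.hasDraw7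
    · exact Pool.Agent.Lib_TTT.hasDraw8
  exact ⟨4, d, rfl, by norm_num, by omega, hdraw, Pool.Agent.Lib_TTT.firstWins h4⟩

end Pool.Agent.Results.MP_2888f6_co.ClassTwoFour
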