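import Pool.Agent.Lib_TTT.Main

/-!
The first player wins the game `4^d` for every `d ≥ 4`.
-/

set_option autoImplicit false

namespace Pool.Agent.Results.MP_2888f6_co.FirstPlayerFour

/-- The geometric lines of `n^d`: the edges of the game, in the words of `S07761`. -/
def IsLine (n d : ℕ) (e : Finset (Fin d → Fin n)) : Prop :=
  ∃ f : Fin n → Fin d → Fin n,
    (∀ j, (∀ i i', f i j = f i' j) ∨ (∀ i, f i j = i) ∨ (∀ i, f i j = Fin.rev i)) ∧
    (∃ j i i', f i j ≠ f i' j) ∧ e = Finset.univ.image f

/-- The first player has a winning strategy in `n^d`, in the words of `S07761`: a function `σ`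
that gives legal moves, such that in every complete play `l` that follows `σ` there is a moment
`k` at which he owns a line and the second player does not. -/
def FirstPlayerWins (n d : ℕ) : Prop :=
  ∃ σ : List (Fin d → Fin n) → (Fin d → Fin n),
    (∀ h : List (Fin d → Fin n), h.Nodup → h.length < Fintype.card (Fin d → Fin n) →
      Even h.length → (∀ k < h.length, Even k → h[k]? = some (σ (h.take k))) → σ h ∉ h) ∧
    ∀ l : List (Fin d → Fin n), l.Nodup → l.length = Fintype.card (Fin d → Fin n) →
      (∀ k < l.length, Even k → l[k]? = some (σ (l.take k))) →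
      ∃ k ≤ l.length,
        (∃ e : Finset (Fin d → Fin n), IsLine n d e ∧
          ∀ x ∈ e, ∃ i < k, Even i ∧ l[i]? = some x) ∧
        ∀ e : Finset (Fin d → Fin n), IsLine n d e →
          ∃ x ∈ e, ∀ i < k, Odd i → l[i]? ≠ some x

/-- For every `d ≥ 4` the first player has a winning strategy in `4^d` Tic-Tac-Toe. -/
theorem result : ∀ d : ℕ, 4 ≤ d → FirstPlayerWins 4 d :=
  fun _ hd => Pool.Agent.Lib_TTT.firstWins hd

end Pool.Agent.Results.MP_2888f6_co.FirstPlayerFour
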